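import Pool.Agent.Q283.FT.Stm2
import Pool.Agent.Q38.EN.EEX

/-!
# Project FT of helper283, job CGE: the number of the classes
-/

set_option autoImplicit false

namespace Pool.Agent.Q154.FT

open NumberField IsDedekindDomain Finset
open Pool.Agent.Q7.LK Pool.Agent.Q14.LK Pool.Agent.Q283.FT
open Pool.Agent.Q283.LQ (Sm nS)
open Pool.Agent.Q38.EN (apx_all cls_eq cls_div)

/-- **JOB CGE.** -/
theorem cge (hBAS : Pool.Agent.Q7.LK.S_BAS) : Pool.Agent.Q283.FT.S_CGE := by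
  classical
  intro F _ _ ζ hζ y f u r π B hfin A hL 𝓛 hM n hB
  haveI : Fintype {v : HeightOneSpectrum (𝓞 F) // Sm y v} := hfin.fintype
  choose Bf hBc hBA hBd using fun v : {v : HeightOneSpectrum (𝓞 F) // Sm y v} => hB v.1 v.2
  have ext1 : ∃ ext : ({v : HeightOneSpectrum (𝓞 F) // Sm y v} → F) → HeightOneSpectrum (𝓞 F) → F,
      ∀ t (v : {v : HeightOneSpectrum (𝓞 F) // Sm y v}), ext t v.1 = t v :=
    ⟨fun t v => if h : Sm y v then t ⟨v, h⟩ else 1, fun t v => dif_pos v.2⟩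
  obtain ⟨ext, hext⟩ := ext1
  -- approximation
  have hap0 : ∀ t : {v : HeightOneSpectrum (𝓞 F) // Sm y v} → F, ∃ e : F, (∀ v, t v ≠ 0) →
      e ≠ 0 ∧ ∀ v : {v : HeightOneSpectrum (𝓞 F) // Sm y v}, Lpw 2 v.1 (e / t v) := by
    intro t
    by_cases ht : ∀ v, t v ≠ 0
    · obtain ⟨e, he, h⟩ := apx_all hBAS 2 hfin.toFinset (ext t) (fun v hv => by
        have hv' : Sm y v := (hfin.mem_toFinset.1 hv)
        rw [hext t ⟨v, hv'⟩]
        exact ht ⟨v, hv'⟩)
      refine ⟨e, fun _ => ⟨he, fun v => ?_⟩⟩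
      have h1 := h v.1 (hfin.mem_toFinset.2 v.2)
      rwa [hext] at h1
    · exact ⟨1, fun h => absurd h ht⟩
  choose e he using hap0
  have hne : ∀ t ∈ Fintype.piFinset Bf, (∀ v, (t v).1 ≠ 0) ∧ ∀ v, (t v).2 ≠ 0 := by
    intro t ht
    exact ⟨fun v => (hL.ne v.1 _ _ v.2 (hBA v _ (Fintype.mem_piFinset.1 ht v))).1,
      fun v => (hL.ne v.1 _ _ v.2 (hBA v _ (Fintype.mem_piFinset.1 ht v))).2⟩
  have hcl : ∀ t : {v : HeightOneSpectrum (𝓞 F) // Sm y v} → F × F,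
      ∃ x x' : (Fin f → ZMod 2) × (Fin f → ZMod 2),
      t ∈ Fintype.piFinset Bf → ((((fun j => (x.2 j, x'.2 j)), fun j => (x.1 j, x'.1 j)) :
        (Fin f → U2) × (Fin f → U2)) ∈ 𝓛) ∧ Nn 2 y (e (fun v => (t v).1) * mon r x.1 * mon u x.2) ∧
        Nn 2 y (e (fun v => (t v).2) * mon r x'.1 * mon u x'.2) := by
    intro t
    by_cases ht : t ∈ Fintype.piFinset Bf
    · obtain ⟨he0, he1⟩ := he (fun v => (t v).1) (hne t ht).1
      obtain ⟨he0', he1'⟩ := he (fun v => (t v).2) (hne t ht).2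
      obtain ⟨x, hx, -⟩ := B.cls _ he0
      obtain ⟨x', hx', -⟩ := B.cls _ he0'
      refine ⟨x, x', fun _ => ⟨(hM _ _ x x' he0 he0' hx hx').2 fun v hv => ?_, hx, hx'⟩⟩
      have h1 := hBA ⟨v, hv⟩ _ (Fintype.mem_piFinset.1 ht ⟨v, hv⟩)
      have h2 := hL.mul v _ _ _ _ hv h1 (hL.pow v _ _ hv (he1 ⟨v, hv⟩) (he1' ⟨v, hv⟩))
      have h0 := (hne t ht).1 ⟨v, hv⟩
      have h0' := (hne t ht).2 ⟨v, hv⟩
      have h3 : (t ⟨v, hv⟩).1 * (e (fun v => (t v).1) / (t ⟨v, hv⟩).1) = e (fun v => (t v).1) := by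
        field_simp
      have h3' : (t ⟨v, hv⟩).2 * (e (fun v => (t v).2) / (t ⟨v, hv⟩).2) = e (fun v => (t v).2) := by
        field_simp
      rwa [h3, h3'] at h2
    · exact ⟨0, 0, fun h => absurd h ht⟩
  choose x x' hx using hcl
  -- two families with the same class
  have hone : ∀ (s s' : {v : HeightOneSpectrum (𝓞 F) // Sm y v} → F) (z : (Fin f → ZMod 2) × (Fin f → ZMod 2)),
      (∀ v, s v ≠ 0) → (∀ v, s' v ≠ 0) → Nn 2 y (e s * mon r z.1 * mon u z.2) →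
      Nn 2 y (e s' * mon r z.1 * mon u z.2) → ∀ v, Lpw 2 v.1 (s v / s' v) := by
    intro s s' z hs hs' h1 h2 v
    have h3 := cls_div hBAS B (he s' hs').1 h1 h2
    have h4 := (he s hs).2 v
    have h5 := (he s' hs').2 v
    have h6 := lpw_mul hBAS (lpw_mul hBAS (h3.2 v.1 v.2) (lpw_inv hBAS h4)) h5
    have n1 := (he s hs).1
    have n2 := (he s' hs').1
    have n3 := hs v
    have n4 := hs' v
    have h7 : e s / e s' * (e s / s v)⁻¹ * (e s' / s' v) = s v / s' v := by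
      field_simp
    rwa [h7] at h6
  have hinj : ∀ t ∈ Fintype.piFinset Bf, ∀ t' ∈ Fintype.piFinset Bf, x t = x t' → x' t = x' t' → t = t' := by
    intro t ht t' ht' hxx hxx'
    obtain ⟨-, a1, a2⟩ := hx t ht
    obtain ⟨-, b1, b2⟩ := hx t' ht'
    rw [← hxx] at b1
    rw [← hxx'] at b2
    have c1 := hone _ _ _ (hne t ht).1 (hne t' ht').1 a1 b1
    have c2 := hone _ _ _ (hne t ht).2 (hne t' ht').2 a2 b2
    funext v
    by_contra hn
    exact hBd v (t v) (Fintype.mem_piFinset.1 ht v) (t' v) (Fintype.mem_piFinset.1 ht' v) hn ⟨c1 v, c2 v⟩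
  have hcard : (Fintype.piFinset Bf).card ≤ Nat.card 𝓛 := by
    rw [← Nat.card_eq_finsetCard]
    refine Nat.card_le_card_of_injective (fun t : (Fintype.piFinset Bf) =>
      (⟨((fun j => ((x t.1).2 j, (x' t.1).2 j)), fun j => ((x t.1).1 j, (x' t.1).1 j)), (hx t.1 t.2).1⟩ : 𝓛)) ?_
    intro t t' h
    have h1 := congrArg Subtype.val h
    have h2 := (Prod.ext_iff.1 h1).1
    have h3 := (Prod.ext_iff.1 h1).2
    have h4 : x t.1 = x t'.1 := by
      refine Prod.ext (funext fun j => ?_) (funext fun j => ?_)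
      · exact (Prod.ext_iff.1 (congrFun h3 j)).1
      · exact (Prod.ext_iff.1 (congrFun h2 j)).1
    have h5 : x' t.1 = x' t'.1 := by
      refine Prod.ext (funext fun j => ?_) (funext fun j => ?_)
      · exact (Prod.ext_iff.1 (congrFun h3 j)).2
      · exact (Prod.ext_iff.1 (congrFun h2 j)).2
    exact Subtype.ext (hinj t.1 t.2 t'.1 t'.2 h4 h5)
  refine le_trans ?_ hcard
  rw [Fintype.card_piFinset, finsum_eq_sum_of_fintype, ← Finset.prod_pow_eq_pow_sum]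
  exact Finset.prod_le_prod (fun v _ => Nat.zero_le _) fun v _ => hBc v

end Pool.Agent.Q154.FT
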