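import Pool.Agent.Q283.FT.Stm4
import Pool.Agent.Q26.EN.QPOW

/-!
# FT-FIT: every `D` belongs to a tuple of primes
-/

set_option autoImplicit false

namespace Pool.Agent.Q154.FT

open NumberField IsDedekindDomain Finset
open Pool.Agent.Q7.LK
open Pool.Agent.Q283.LQ (Sm)
open Pool.Agent.Q283.FT

theorem fit : Pool.Agent.Q283.FT.S_FIT := by
  classical
  intro F _ _ y D0 D hD0 hD hL
  have hfin : {v : HeightOneSpectrum (𝓞 F) | ¬ Sm y v ∧ vl 2 v D ≠ 0}.Finite := by
    refine (Pool.Agent.Q26.EN.fin_val' hD).subset ?_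
    rintro v ⟨-, hv⟩ h1
    apply hv
    show -((WithZero.log (v.valuation F D) : ℤ) : ZMod 2) = 0
    rw [h1, WithZero.log_one, Int.cast_zero, neg_zero]
  let e : Fin hfin.toFinset.card ≃ hfin.toFinset := (hfin.toFinset.equivFin).symm
  refine ⟨hfin.toFinset.card, fun j => (e j).1, fun a b h => e.injective (Subtype.ext h), fun j => ?_, hD,
    fun v hv => ?_, hL⟩
  · exact (hfin.mem_toFinset.1 (e j).2).1
  · by_cases h : vl 2 v D = 0
    · rw [h]
      symm
      apply Finset.sum_eq_zero
      intro j _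
      rw [if_neg]
      intro hj
      have h2 := (hfin.mem_toFinset.1 (e j).2).2
      rw [hj] at h2
      exact h2 h
    · have hm : v ∈ hfin.toFinset := hfin.mem_toFinset.2 ⟨hv, h⟩
      have h1 : ∀ z : ZMod 2, z ≠ 0 → z = 1 := by decide
      rw [h1 _ h, Finset.sum_eq_single (e.symm ⟨v, hm⟩)]
      · rw [if_pos]
        rw [e.apply_symm_apply]
      · intro j _ hj
        rw [if_neg]
        intro hj2
        apply hj
        rw [Equiv.eq_symm_apply]
        exact Subtype.ext hj2
      · intro h
        exact absurd (Finset.mem_univ _) h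

end Pool.Agent.Q154.FT
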