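import Pool.Agent.Q283.FT.Stm4
import Pool.Agent.Q26.EN.QPOW

/-!
# FT-NEX: the Selmer group is finite
-/

set_option autoImplicit false

namespace Pool.Agent.Q154.FT

open NumberField IsDedekindDomain Finset
open Pool.Agent.Q7.LK
open Pool.Agent.Q283.LQ (Sm)
open Pool.Agent.Q283.FT
open Pool.Agent.Q14.LK (mon_ne mon_zero mon_add)
open Pool.Agent.Q26.EN (fin_val' exists_sm_finite exists_place)

/-- abstract form for pairs: a property of pairs, stable under products and squares, depending on exponents -/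
theorem hasN2_of_group {F : Type} [Field F] (P : F → F → Prop) {f : ℕ} {u : Fin f → F} (hu : ∀ l, u l ≠ 0)
    (hne : ∀ a b, P a b → a ≠ 0 ∧ b ≠ 0)
    (hone : P 1 1) (hmul : ∀ a b a' b', P a b → P a' b' → P (a * a') (b * b'))
    (hsq : ∀ a b s t, P a b → s ≠ 0 → t ≠ 0 → P (a * s ^ 2) (b * t ^ 2))
    (ind : ∀ c : Fin f → ZMod 2, IsPow 2 (mon u c) → c = 0)
    (full : ∀ a b, P a b → ∃ c c' : Fin f → ZMod 2, IsPow 2 (a * mon u c) ∧ IsPow 2 (b * mon u c')) :
    ∃ n : ℕ, HasN2 P (2 ^ n) := by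
  classical
  have hadd : ∀ c c' d d' : Fin f → ZMod 2, P (mon u c) (mon u d) → P (mon u c') (mon u d') →
      P (mon u (c + c')) (mon u (d + d')) := by
    intro c c' d d' h h'
    obtain ⟨x, hx, he⟩ := mon_add hu c c'
    obtain ⟨x2, hx2, he2⟩ := mon_add hu d d'
    have h1 := hsq _ _ x⁻¹ x2⁻¹ (hmul _ _ _ _ h h') (inv_ne_zero hx) (inv_ne_zero hx2)
    rw [he, mul_assoc, ← mul_pow, mul_inv_cancel₀ hx, one_pow, mul_one, he2, mul_assoc, ← mul_pow,
      mul_inv_cancel₀ hx2, one_pow, mul_one] at h1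
    exact h1
  have hzero : P (mon u (0 : Fin f → ZMod 2)) (mon u (0 : Fin f → ZMod 2)) := by
    rw [mon_zero]
    exact hone
  let W : Submodule (ZMod 2) ((Fin f → ZMod 2) × (Fin f → ZMod 2)) :=
    { carrier := {c | P (mon u c.1) (mon u c.2)}
      add_mem' := fun {c c'} h h' => hadd c.1 c'.1 c.2 c'.2 h h'
      zero_mem' := hzero
      smul_mem' := by
        intro a c h
        have ha : a = 0 ∨ a = 1 := by
          revert a
          decide
        rcases ha with rfl | rfl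
        · rw [zero_smul]
          exact hzero
        · rw [one_smul]
          exact h }
  have hW : ∀ c, c ∈ W ↔ P (mon u c.1) (mon u c.2) := fun c => Iff.rfl
  -- for one component: the class
  have hone' : ∀ (b : F) (c : Fin f → ZMod 2), b ≠ 0 → IsPow 2 (b * mon u c) →
      (∃ s, s ≠ 0 ∧ b * s ^ 2 = mon u c) ∧ IsPow 2 (b / mon u c) := by
    intro b c hb0 hb
    obtain ⟨s, hs⟩ := hb
    have hm := mon_ne hu c
    have hs0 : s ≠ 0 := by
      rintro rfl
      rw [zero_pow two_ne_zero] at hs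
      exact mul_ne_zero hb0 hm hs
    refine ⟨⟨s / b, div_ne_zero hs0 hb0, ?_⟩, b / s, ?_⟩
    · rw [div_pow, ← hs]
      field_simp
    · rw [div_pow, ← hs]
      field_simp
  -- for every pair of the property the class
  have hcl : ∀ b b', P b b' → ∃ c ∈ W, IsPow 2 (b / mon u c.1) ∧ IsPow 2 (b' / mon u c.2) := by
    intro b b' hb
    obtain ⟨c, c', h1, h2⟩ := full b b' hb
    obtain ⟨hb0, hb0'⟩ := hne b b' hb
    obtain ⟨⟨s, hs0, hs⟩, hp⟩ := hone' b c hb0 h1
    obtain ⟨⟨t, ht0, ht⟩, hp'⟩ := hone' b' c' hb0' h2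
    refine ⟨(c, c'), ?_, hp, hp'⟩
    rw [hW]
    have h3 := hsq b b' s t hb hs0 ht0
    rwa [hs, ht] at h3
  have hcard : Nat.card W = 2 ^ Module.finrank (ZMod 2) W := by
    rw [Module.natCard_eq_pow_finrank (K := ZMod 2), Nat.card_zmod]
  refine ⟨Module.finrank (ZMod 2) W, ?_⟩
  have hfin : Finite W := inferInstance
  let e : Fin (2 ^ Module.finrank (ZMod 2) W) ≃ W := (finCongr hcard.symm).trans (Finite.equivFin W).symm
  -- quotients which are squares
  have hquo : ∀ c d : Fin f → ZMod 2, IsPow 2 (mon u c / mon u d) → c = d := by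
    intro c d hp
    obtain ⟨s, hs⟩ := hp
    have hmi := mon_ne hu c
    have hmj := mon_ne hu d
    obtain ⟨x, hx, he⟩ := mon_add hu c d
    have h1 := ind (c + d) ⟨s * mon u d / x, by
      have h2 : mon u (c + d) = mon u c * mon u d / x ^ 2 := by
        rw [he]
        field_simp
      rw [h2, div_pow, mul_pow, ← hs]
      field_simp⟩
    have h3 : ∀ a b : ZMod 2, a + b = 0 → a = b := by decide
    exact funext fun l => h3 _ _ (congrFun h1 l)
  refine ⟨fun i => (mon u (e i).1.1, mon u (e i).1.2), fun i => (e i).2, fun i j hij hp => ?_, fun b b' hb => ?_⟩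
  · apply hij
    apply e.injective
    apply Subtype.ext
    exact Prod.ext (hquo _ _ hp.1) (hquo _ _ hp.2)
  · obtain ⟨c, hc, hp⟩ := hcl b b' hb
    refine ⟨e.symm ⟨c, hc⟩, ?_⟩
    show IsPow 2 (b / mon u (e (e.symm ⟨c, hc⟩)).1.1) ∧ IsPow 2 (b' / mon u (e (e.symm ⟨c, hc⟩)).1.2)
    rw [e.apply_symm_apply]
    exact hp

theorem nex (hBAS : Pool.Agent.Q7.LK.S_BAS) (hGDS : Pool.Agent.Q283.FT.S_GDS) (hGDU : Pool.Agent.Q283.FT.S_GDU)
    (hLCP : Pool.Agent.Q283.FT.S_LCP) : Pool.Agent.Q283.FT.S_NEX := by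
  intro F _ _ i ζ hi hζ hPB e hR
  obtain ⟨y0, hy0⟩ := hPB
  obtain ⟨y1, hy1⟩ := hGDS F e hR
  obtain ⟨f, u, r, π, g, hB, -⟩ := hy0 (max y0 y1) (le_max_left _ _)
  have hgd := hy1 (max y0 y1) (le_max_right _ _)
  have hne : ∀ a b : F, SC e a b → a ≠ 0 ∧ b ≠ 0 := by
    intro a b h
    obtain ⟨v⟩ := exists_place F
    exact ⟨(h v).1, (h v).2.1⟩
  have h1L : ∀ v : HeightOneSpectrum (𝓞 F), Lpw 2 v (1 : F) := fun v => Pool.Agent.Q14.LK.lpw_one hBAS v
  have htw : twi (1 : F) e = e := by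
    funext l
    show 1 * e l = e l
    rw [one_mul]
  refine hasN2_of_group (SC e) hB.ue hne ?_ ?_ ?_ hB.ind ?_
  · intro v
    exact (hLCP F i hi e hR v).2.2.2 1 1 (Or.inl ⟨h1L v, h1L v⟩)
  · intro a b a' b' h h' v
    exact (hLCP F i hi e hR v).1 a b a' b' (h v) (h' v)
  · intro a b s t h hs ht v
    exact (hLCP F i hi e hR v).2.1 a b (s ^ 2) (t ^ 2) ((hBAS 2 F v).2.2.1 s hs) ((hBAS 2 F v).2.2.1 t ht) (h v)
  · intro a b h
    obtain ⟨ha0, hb0⟩ := hne a b h
    have hv : ∀ v : HeightOneSpectrum (𝓞 F), ¬ Sm (max y0 y1) v → vl 2 v a = 0 ∧ vl 2 v b = 0 := by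
      intro v hv
      have h1 : vl 2 v (1 : F) = 0 := Pool.Agent.Q14.LK.vl_one hBAS v
      have h2 := hGDU F i hi v e hR (hgd v hv) 1 a b one_ne_zero ha0 hb0 h1
      rw [htw] at h2
      exact h2.1 (h v)
    obtain ⟨c, hc⟩ := hB.full a ha0 fun v hv' => (hv v hv').1
    obtain ⟨c', hc'⟩ := hB.full b hb0 fun v hv' => (hv v hv').2
    exact ⟨c, c', hc, hc'⟩

end Pool.Agent.Q154.FT
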